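import Pool.Agent.H40.EGD.Targets

/-!
# Ergodicity of irrational rotations (row ROT)
-/

set_option autoImplicit false

namespace Pool.Agent.H73.EGD

open MeasureTheory Set Metric Filter Topology Pool.Agent.H93.BL
open Pool.Agent.H93.EN (av md rf)
open Pool.Agent.H93.EG (InvG T_MAIN)
open Pool.Agent.H40.EGD

/-- the modes of an invariant function vanish -/
theorem rot_md (h : ℂ → ℝ) (ρ : ℂ) (hρ : ‖ρ‖ = 1)
    (hinv : ∀ᵐ θ : ℝ, h (Complex.exp ((θ : ℂ) * Complex.I)) =
      h (ρ * Complex.exp ((θ : ℂ) * Complex.I))) (k : ℤ) (hk : ρ ^ k ≠ 1) : md h k = 0 := by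
  set a : ℝ := Complex.arg ρ with ha
  have hρa : ρ = Complex.exp ((a : ℂ) * Complex.I) := by
    have h1 := Complex.norm_mul_exp_arg_mul_I ρ
    rw [hρ, Complex.ofReal_one, one_mul] at h1
    exact h1.symm
  set φ : ℝ → ℂ := fun θ => (h (Complex.exp ((θ : ℂ) * Complex.I)) : ℂ) *
    Complex.exp (-((k : ℂ) * (θ : ℂ) * Complex.I)) with hφ
  have hper : Function.Periodic φ (2 * Real.pi) := by
    intro θ
    have h2 : Complex.exp (((θ + 2 * Real.pi : ℝ) : ℂ) * Complex.I) =
        Complex.exp ((θ : ℂ) * Complex.I) := by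
      have h3 : (((θ + 2 * Real.pi : ℝ) : ℂ) * Complex.I) =
          (θ : ℂ) * Complex.I + 2 * Real.pi * Complex.I := by
        push_cast
        ring
      rw [h3, Complex.exp_add, Complex.exp_two_pi_mul_I, mul_one]
    have h4 : Complex.exp (-((k : ℂ) * ((θ + 2 * Real.pi : ℝ) : ℂ) * Complex.I)) =
        Complex.exp (-((k : ℂ) * (θ : ℂ) * Complex.I)) := by
      have h5 : (-((k : ℂ) * ((θ + 2 * Real.pi : ℝ) : ℂ) * Complex.I)) =
          -((k : ℂ) * (θ : ℂ) * Complex.I) + ((-k : ℤ) : ℂ) * (2 * Real.pi * Complex.I) := by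
        push_cast
        ring
      rw [h5, Complex.exp_add, Complex.exp_int_mul_two_pi_mul_I, mul_one]
    simp only [hφ, h2, h4]
  have hexpk : Complex.exp ((k : ℂ) * (a : ℂ) * Complex.I) = ρ ^ k := by
    rw [hρa, ← Complex.exp_int_mul]
    congr 1
    ring
  have hshift : ∀ θ : ℝ, (h (ρ * Complex.exp ((θ : ℂ) * Complex.I)) : ℂ) *
      Complex.exp (-((k : ℂ) * (θ : ℂ) * Complex.I)) = ρ ^ k * φ (θ + a) := by
    intro θ
    have h6 : ρ * Complex.exp ((θ : ℂ) * Complex.I) =
        Complex.exp (((θ + a : ℝ) : ℂ) * Complex.I) := by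
      rw [hρa, ← Complex.exp_add]
      congr 1
      push_cast
      ring
    have h7 : Complex.exp (-((k : ℂ) * (θ : ℂ) * Complex.I)) =
        ρ ^ k * Complex.exp (-((k : ℂ) * ((θ + a : ℝ) : ℂ) * Complex.I)) := by
      rw [← hexpk, ← Complex.exp_add]
      congr 1
      push_cast
      ring
    rw [h6, h7]
    simp only [hφ]
    ring
  have hint : ∫ θ in (0 : ℝ)..(2 * Real.pi), φ θ =
      ρ ^ k * ∫ θ in (0 : ℝ)..(2 * Real.pi), φ θ := by
    have h8 : ∫ θ in (0 : ℝ)..(2 * Real.pi), φ θ =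
        ∫ θ in (0 : ℝ)..(2 * Real.pi), ρ ^ k * φ (θ + a) := by
      refine intervalIntegral.integral_congr_ae ?_
      filter_upwards [hinv] with θ hθ _
      rw [← hshift θ, ← hθ]
    rw [intervalIntegral.integral_const_mul, intervalIntegral.integral_comp_add_right] at h8
    have h9 := hper.intervalIntegral_add_eq (0 + a) 0
    rw [zero_add, zero_add] at h9
    rw [zero_add, add_comm (2 * Real.pi) a, h9] at h8
    exact h8
  have hzero : ∫ θ in (0 : ℝ)..(2 * Real.pi), φ θ = 0 := by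
    have h10 : (1 - ρ ^ k) * ∫ θ in (0 : ℝ)..(2 * Real.pi), φ θ = 0 := by
      rw [sub_mul, one_mul, ← hint, sub_self]
    rcases mul_eq_zero.mp h10 with h11 | h11
    · exact absurd (sub_eq_zero.mp h11).symm hk
    · exact h11
  unfold md
  rw [hzero, mul_zero]

/-- (ROT) ergodicity of irrational rotations -/
theorem ROT (hUNI : T_UNI) : T_ROT := by
  classical
  intro ρ W hρ hirr hW hinv
  have hρ0 : ρ ≠ 0 := by
    intro h
    rw [h, norm_zero] at hρ
    exact zero_ne_one hρ
  have hzpow : ∀ k : ℤ, k ≠ 0 → ρ ^ k ≠ 1 := by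
    intro k hk h
    obtain ⟨m, rfl | rfl⟩ := k.eq_nat_or_neg
    · rw [zpow_natCast] at h
      exact hirr m (Nat.pos_of_ne_zero fun h0 => hk (by rw [h0]; rfl)) h
    · rw [zpow_neg, zpow_natCast] at h
      exact hirr m (Nat.pos_of_ne_zero fun h0 => hk (by rw [h0]; rfl)) (inv_eq_one.mp h)
  set g : ℂ → ℝ := W.indicator (fun _ => (1 : ℝ)) with hg
  have hgm : Measurable g := measurable_const.indicator hW
  have hgb : ∀ w, |g w| ≤ 1 := by
    intro w
    by_cases hw : w ∈ W
    · rw [hg, Set.indicator_of_mem hw, abs_one]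
    · rw [hg, Set.indicator_of_notMem hw, abs_zero]
      exact zero_le_one
  have hginv : ∀ᵐ θ : ℝ, g (Complex.exp ((θ : ℂ) * Complex.I)) =
      g (ρ * Complex.exp ((θ : ℂ) * Complex.I)) := by
    filter_upwards [hinv] with θ hθ
    by_cases hw : Complex.exp ((θ : ℂ) * Complex.I) ∈ W
    · rw [hg, Set.indicator_of_mem hw, Set.indicator_of_mem (hθ.mp hw)]
    · rw [hg, Set.indicator_of_notMem hw, Set.indicator_of_notMem fun h => hw (hθ.mpr h)]
  set c : ℝ := (2 * Real.pi)⁻¹ * ∫ θ in (0 : ℝ)..(2 * Real.pi),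
    g (Complex.exp ((θ : ℂ) * Complex.I)) with hc
  have hae : ∀ᵐ θ : ℝ, g (Complex.exp ((θ : ℂ) * Complex.I)) = c := by
    refine hUNI g (fun _ => c) hgm measurable_const ⟨1, hgb⟩ ⟨|c|, fun _ => le_rfl⟩ fun k => ?_
    by_cases hk : k = 0
    · subst hk
      unfold md
      simp only [Int.cast_zero, zero_mul, neg_zero, Complex.exp_zero, mul_one,
        intervalIntegral.integral_ofReal, intervalIntegral.integral_const, sub_zero]
      rw [← Complex.ofReal_mul, ← hc, Complex.real_smul, ← Complex.ofReal_mul,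
        ← Complex.ofReal_mul, ← mul_assoc, inv_mul_cancel₀ Real.two_pi_pos.ne', one_mul]
    · rw [rot_md g ρ hρ hginv k (hzpow k hk),
        rot_md (fun _ => c) ρ hρ (Filter.Eventually.of_forall fun _ => rfl) k (hzpow k hk)]
  by_cases hc1 : c = 1
  · left
    filter_upwards [hae] with θ hθ
    by_contra hw
    rw [hg, Set.indicator_of_notMem hw, hc1] at hθ
    exact zero_ne_one hθ
  · right
    filter_upwards [hae] with θ hθ hw
    rw [hg, Set.indicator_of_mem hw] at hθ
    exact hc1 hθ.symm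

end Pool.Agent.H73.EGD
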