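import Pool.Agent.H40.EGD.Targets

/-!
# Uniqueness of the Fourier coefficients on the circle (row UNI)
-/

set_option autoImplicit false

namespace Pool.Agent.H73.EGD

open MeasureTheory Set Metric Filter Topology Pool.Agent.H93.BL
open Pool.Agent.H93.EN (av md rf)
open Pool.Agent.H93.EG (InvG T_MAIN)
open Pool.Agent.H40.EGD

/-- interval integrability of a bounded measurable function times an exponential -/
theorem uni_int (g : ℂ → ℝ) (hg : Measurable g) (C : ℝ) (hC : ∀ w, |g w| ≤ C) (k : ℤ) :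
    IntervalIntegrable (fun θ : ℝ => (g (Complex.exp ((θ : ℂ) * Complex.I)) : ℂ) *
      Complex.exp (-((k : ℂ) * (θ : ℂ) * Complex.I))) volume 0 (2 * Real.pi) := by
  have hm : Measurable (fun θ : ℝ => (g (Complex.exp ((θ : ℂ) * Complex.I)) : ℂ) *
      Complex.exp (-((k : ℂ) * (θ : ℂ) * Complex.I))) := by
    have h1 : Measurable fun θ : ℝ => Complex.exp ((θ : ℂ) * Complex.I) :=
      (Complex.continuous_exp.comp (by fun_prop)).measurable
    have h2 : Measurable fun θ : ℝ => Complex.exp (-((k : ℂ) * (θ : ℂ) * Complex.I)) :=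
      (Complex.continuous_exp.comp (by fun_prop)).measurable
    exact (Complex.measurable_ofReal.comp (hg.comp h1)).mul h2
  rw [intervalIntegrable_iff]
  refine Measure.integrableOn_of_bounded (M := C) (by
    rw [Set.uIoc_of_le Real.two_pi_pos.le, Real.volume_Ioc]
    exact ENNReal.ofReal_ne_top) hm.aestronglyMeasurable ?_
  refine Filter.Eventually.of_forall fun θ => ?_
  rw [norm_mul, Complex.norm_real, Complex.norm_exp]
  have h3 : (-((k : ℂ) * (θ : ℂ) * Complex.I)).re = 0 := by simp
  rw [h3, Real.exp_zero, mul_one]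
  exact hC _

/-- (UNI) uniqueness of the Fourier coefficients -/
theorem UNI : T_UNI := by
  intro g g' hg hg' ⟨C, hC⟩ ⟨C', hC'⟩ hk
  have hpi : (0 : ℝ) < 2 * Real.pi := Real.two_pi_pos
  set f : ℝ → ℂ := fun θ => (g (Complex.exp ((θ : ℂ) * Complex.I)) : ℂ) -
    (g' (Complex.exp ((θ : ℂ) * Complex.I)) : ℂ) with hf
  have hexp : Measurable fun θ : ℝ => Complex.exp ((θ : ℂ) * Complex.I) :=
    (Complex.continuous_exp.comp (by fun_prop)).measurable
  have hfm : Measurable f :=
    (Complex.measurable_ofReal.comp (hg.comp hexp)).sub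
      (Complex.measurable_ofReal.comp (hg'.comp hexp))
  have hfb : ∀ θ, ‖f θ‖ ≤ C + C' := by
    intro θ
    refine (norm_sub_le _ _).trans (add_le_add ?_ ?_)
    · rw [Complex.norm_real]
      exact hC _
    · rw [Complex.norm_real]
      exact hC' _
  have hL2 : MemLp f 2 (volume.restrict (Ioc 0 (2 * Real.pi))) :=
    MemLp.of_bound hfm.aestronglyMeasurable (C + C') (Filter.Eventually.of_forall hfb)
  have hcoef : ∀ n : ℤ, fourierCoeffOn hpi f n = 0 := by
    intro n
    rw [fourierCoeffOn_eq_integral]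
    have h1 : ∀ x : ℝ, fourier (-n) (x : AddCircle (2 * Real.pi - 0)) • f x =
        (g (Complex.exp ((x : ℂ) * Complex.I)) : ℂ) *
          Complex.exp (-((n : ℂ) * (x : ℂ) * Complex.I)) -
        (g' (Complex.exp ((x : ℂ) * Complex.I)) : ℂ) *
          Complex.exp (-((n : ℂ) * (x : ℂ) * Complex.I)) := by
      intro x
      have h2 : fourier (-n) (x : AddCircle (2 * Real.pi - 0)) =
          Complex.exp (-((n : ℂ) * (x : ℂ) * Complex.I)) := by
        rw [fourier_coe_apply]
        congr 1
        have h3 : (Real.pi : ℂ) ≠ 0 := by exact_mod_cast Real.pi_ne_zero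
        push_cast
        field_simp
        ring
      rw [h2, hf, smul_eq_mul]
      ring
    have h4 := hk n
    unfold md at h4
    have h5 : (((2 * Real.pi)⁻¹ : ℝ) : ℂ) ≠ 0 := by
      exact_mod_cast (inv_pos.mpr hpi).ne'
    have h6 := mul_left_cancel₀ h5 h4
    rw [intervalIntegral.integral_congr (g := fun x : ℝ =>
        (g (Complex.exp ((x : ℂ) * Complex.I)) : ℂ) *
          Complex.exp (-((n : ℂ) * (x : ℂ) * Complex.I)) -
        (g' (Complex.exp ((x : ℂ) * Complex.I)) : ℂ) *
          Complex.exp (-((n : ℂ) * (x : ℂ) * Complex.I))) (fun x _ => h1 x),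
      intervalIntegral.integral_sub (uni_int g hg C hC n) (uni_int g' hg' C' hC' n), h6,
      sub_self, smul_zero]
  have hpars := tsum_sq_fourierCoeffOn hpi hL2
  simp only [hcoef, norm_zero, ne_eq, OfNat.ofNat_ne_zero, not_false_eq_true, zero_pow,
    tsum_zero] at hpars
  have hint0 : ∫ x in (0 : ℝ)..(2 * Real.pi), ‖f x‖ ^ 2 = 0 := by
    have h7 : (2 * Real.pi - 0)⁻¹ ≠ 0 := by
      rw [sub_zero]
      exact (inv_pos.mpr hpi).ne'
    rcases smul_eq_zero.mp hpars.symm with h | h
    · exact absurd h h7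
    · exact h
  rw [intervalIntegral.integral_of_le hpi.le] at hint0
  have hii : Integrable (fun x => ‖f x‖ ^ 2) (volume.restrict (Ioc 0 (2 * Real.pi))) := by
    refine Integrable.of_bound (hfm.norm.pow_const 2).aestronglyMeasurable ((C + C') ^ 2) ?_
    refine Filter.Eventually.of_forall fun x => ?_
    rw [Real.norm_of_nonneg (by positivity)]
    exact pow_le_pow_left₀ (norm_nonneg _) (hfb x) 2
  have hae : ∀ᵐ x : ℝ, x ∈ Ioc 0 (2 * Real.pi) → f x = 0 := by
    have h8 := (integral_eq_zero_iff_of_nonneg (fun x => by positivity) hii).mp hint0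
    have h9 : ∀ᵐ x ∂(volume.restrict (Ioc 0 (2 * Real.pi))), f x = 0 := by
      filter_upwards [h8] with x hx
      have h10 : ‖f x‖ ^ 2 = 0 := hx
      exact norm_eq_zero.mp (pow_eq_zero_iff (two_ne_zero) |>.mp h10)
    exact (ae_restrict_iff' measurableSet_Ioc).mp h9
  have hall : ∀ᵐ x : ℝ, ∀ m : ℤ, x + m • (2 * Real.pi) ∈ Ioc 0 (2 * Real.pi) →
      f (x + m • (2 * Real.pi)) = 0 := by
    rw [ae_all_iff]
    intro m
    exact (measurePreserving_add_right volume (m • (2 * Real.pi))).quasiMeasurePreserving.ae hae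
  filter_upwards [hall] with x hx
  obtain ⟨m, hm, -⟩ := existsUnique_add_zsmul_mem_Ioc hpi x 0
  rw [zero_add] at hm
  have h11 := hx m hm
  have h12 : Complex.exp (((x + m • (2 * Real.pi) : ℝ) : ℂ) * Complex.I) =
      Complex.exp ((x : ℂ) * Complex.I) := by
    have h13 : (((x + m • (2 * Real.pi) : ℝ) : ℂ) * Complex.I) =
        (x : ℂ) * Complex.I + m * (2 * Real.pi * Complex.I) := by
      push_cast
      rw [zsmul_eq_mul]
      ring
    rw [h13, Complex.exp_add, Complex.exp_int_mul_two_pi_mul_I, mul_one]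
  rw [hf] at h11
  simp only [h12] at h11
  have h14 : ((g (Complex.exp ((x : ℂ) * Complex.I)) : ℝ) : ℂ) =
      ((g' (Complex.exp ((x : ℂ) * Complex.I)) : ℝ) : ℂ) := sub_eq_zero.mp h11
  exact_mod_cast h14

end Pool.Agent.H73.EGD
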